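import Mathlib

set_option autoImplicit false

namespace Pool.Agent.Results.MP_900fba_co.NotPR

lemma dec (n : ℤ) (hn : n ≠ 0) : ∃ p : ℕ × ℤ, n = 5 ^ p.1 * p.2 ∧ ¬ (5 : ℤ) ∣ p.2 := by
  obtain ⟨k, m, h1, h2⟩ := WfDvdMonoid.max_power_factor hn
    (Int.prime_iff_natAbs_prime.2 (by norm_num : Nat.Prime (5 : ℤ).natAbs)).irreducible
  exact ⟨(k, m), h2, h1⟩

lemma uniq (a b : ℕ) (u v : ℤ) (hu : ¬ (5 : ℤ) ∣ u) (hv : ¬ (5 : ℤ) ∣ v)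
    (h : 5 ^ a * u = 5 ^ b * v) : a = b ∧ u = v := by
  have key : ∀ (a b : ℕ) (u v : ℤ), ¬ (5 : ℤ) ∣ u → 5 ^ a * u = 5 ^ b * v → b ≤ a := by
    intro a b u v hu h
    by_contra hlt
    obtain ⟨c, rfl⟩ : ∃ c, b = a + (c + 1) := ⟨b - a - 1, by omega⟩
    apply hu
    refine ⟨5 ^ c * v, mul_left_cancel₀ (pow_ne_zero a (by norm_num : (5 : ℤ) ≠ 0)) ?_⟩
    rw [h]; ring
  have e : a = b := le_antisymm (key b a v u hv h.symm) (key a b u v hu h)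
  subst e
  exact ⟨rfl, mul_left_cancel₀ (pow_ne_zero a (by norm_num : (5 : ℤ) ≠ 0)) h⟩

lemma z5 : ∀ d : ZMod 5, d ≠ 0 → d * d ^ 12 ≠ 0 ∧ 3 ^ 6 * d ≠ d * d ^ 12 ∧ 3 ^ 6 * d ≠ 0 := by
  decide

lemma first : ∃ (r : ℕ) (c : ℤ → Fin r), ∀ x y w z : ℤ, x ≠ 0 → y ≠ 0 → w ≠ 0 → z ≠ 0 →
    5 ^ 4 * x + 3 ^ 6 * y = w * z ^ 12 → ¬ (c x = c y ∧ c x = c w ∧ c x = c z) := by
  choose! p hp using dec
  obtain ⟨e⟩ : Nonempty (ZMod 3 × ZMod 5 ≃ Fin 15) := ⟨Fintype.equivFinOfCardEq (by simp)⟩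
  refine ⟨15, fun n => e (((p n).1 : ZMod 3), ((p n).2 : ZMod 5)), ?_⟩
  rintro x y w z hx hy hw hz h ⟨e1, e2, e3⟩
  obtain ⟨a1, b1⟩ := Prod.mk.inj (e.injective e1)
  obtain ⟨a2, b2⟩ := Prod.mk.inj (e.injective e2)
  obtain ⟨-, b3⟩ := Prod.mk.inj (e.injective e3)
  obtain ⟨fx, gx⟩ := hp x hx
  obtain ⟨fy, -⟩ := hp y hy
  obtain ⟨fw, -⟩ := hp w hw
  obtain ⟨fz, -⟩ := hp z hz
  generalize (p x).1 = a, (p x).2 = X, (p y).1 = b, (p y).2 = Y, (p w).1 = s, (p w).2 = W,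
    (p z).1 = t, (p z).2 = Z at *
  rw [ZMod.natCast_eq_natCast_iff'] at a1 a2
  have cast : ∀ n : ℤ, (5 : ℤ) ∣ n ↔ (n : ZMod 5) = 0 := fun n =>
    (ZMod.intCast_zmod_eq_zero_iff_dvd n 5).symm
  have five : (5 : ZMod 5) = 0 := by decide
  obtain ⟨k1, k2, k3⟩ := z5 X (by rwa [cast] at gx)
  have hr : ¬ (5 : ℤ) ∣ W * Z ^ 12 := by rw [cast]; push_cast; rw [← b2, ← b3]; exact k1
  have er : w * z ^ 12 = 5 ^ (s + 12 * t) * (W * Z ^ 12) := by rw [fw, fz]; ring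
  rcases lt_trichotomy (a + 4) b with l | l | l
  · obtain ⟨c, rfl⟩ : ∃ c, b = a + 4 + (c + 1) := ⟨b - (a + 4) - 1, by omega⟩
    have := uniq (a + 4) (s + 12 * t) (X + 5 * (3 ^ 6 * 5 ^ c * Y)) _
      (by rw [cast] at gx ⊢; push_cast; rw [five]; simpa using gx) hr
      (by rw [← er, ← h, fx, fy]; ring)
    omega
  · omega
  · obtain ⟨c, hc⟩ : ∃ c, a + 4 = b + (c + 1) := ⟨a + 4 - b - 1, by omega⟩
    have ec : ((3 ^ 6 * Y + 5 * (5 ^ c * X) : ℤ) : ZMod 5) = 3 ^ 6 * X := by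
      push_cast; rw [five, b1]; norm_num
    have := uniq b (s + 12 * t) (3 ^ 6 * Y + 5 * (5 ^ c * X)) _
      (by rw [cast, ec]; exact k3) hr
      (by
        have : (5 : ℤ) ^ 4 * 5 ^ a = 5 ^ (b + (c + 1)) := by rw [← hc]; ring
        rw [← er, ← h, fx, fy, ← mul_assoc (5 ^ 4), this]; ring)
    apply k2
    rw [← ec, this.2]; push_cast; rw [← b2, ← b3]

theorem result : ∃ (r : ℕ) (c : ℤ → Fin r),
    (∀ x y w z : ℤ, x ≠ 0 → y ≠ 0 → w ≠ 0 → z ≠ 0 →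
      5 ^ 4 * x + 3 ^ 6 * y = w * z ^ 12 → ¬ (c x = c y ∧ c x = c w ∧ c x = c z)) ∧
    ∀ v : Fin 8 → ℤ, (∀ i, v i ≠ 0) → 5 ^ 4 * v 0 + 3 ^ 6 * v 1 = v 2 * v 3 ^ 12 →
      (5 ^ 4 - 3 ^ 6) * v 4 + 3 ^ 6 * v 5 = v 6 * v 7 ^ 12 → ¬ ∀ i j, c (v i) = c (v j) := by
  obtain ⟨r, c, h⟩ := first
  exact ⟨r, c, h, fun v hv e _ k => h _ _ _ _ (hv 0) (hv 1) (hv 2) (hv 3) e ⟨k _ _, k _ _, k _ _⟩⟩

end Pool.Agent.Results.MP_900fba_co.NotPR
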